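import Pool.Agent.H800R2.Front

set_option autoImplicit false

open Set Filter Topology

namespace Pool.Agent.Y330.PR

open scoped RealInnerProductSpace ContDiff
open Pool.Agent.H800R2

variable {n : ℕ} (e : Euc n)

/-- half of `‖q‖² + z²`, where `z = ⟪e, q⟫` -/
noncomputable def Ev (q : Euc n) : ℝ := (‖q‖ ^ 2 + ⟪e, q⟫ ^ 2) / 2

/-- `(|x|² - 1)²`, where `|x|² = ‖q‖² - z²` -/
noncomputable def Qf (q : Euc n) : ℝ := (‖q‖ ^ 2 - ⟪e, q⟫ ^ 2 - 1) ^ 2

/-- the function which cuts out the lower part of the room -/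
noncomputable def Ff (q : Euc n) : ℝ :=
  expNegInvGlue (-⟪e, q⟫) - expNegInvGlue (Qf e q) * (1 - Ev e q)

/-- the room: the part of the ellipsoid `‖q‖² + z² < 2` above the level `z = 0`, and two pockets
below that level, separated by a wall whose top is the focal sphere `z = 0`, `‖q‖ = 1` -/
def room : Set (Euc n) := {q | Ev e q < 1 ∧ (0 < ⟪e, q⟫ ∨ Ff e q < 0)}

theorem contDiff_z : ContDiff ℝ ∞ (fun q : Euc n => ⟪e, q⟫) :=
  contDiff_const.inner ℝ contDiff_id

theorem contDiff_Ev : ContDiff ℝ ∞ (Ev e) :=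
  ((contDiff_norm_sq ℝ).add ((contDiff_z e).pow 2)).div_const 2

theorem contDiff_Qf : ContDiff ℝ ∞ (Qf e) :=
  (((contDiff_norm_sq ℝ).sub ((contDiff_z e).pow 2)).sub contDiff_const).pow 2

theorem contDiff_Ff : ContDiff ℝ ∞ (Ff e) := by
  have h : ContDiff ℝ ∞ expNegInvGlue := expNegInvGlue.contDiff (n := (⊤ : ℕ∞))
  exact (h.comp (contDiff_z e).neg).sub ((h.comp (contDiff_Qf e)).mul
    (contDiff_const.sub (contDiff_Ev e)))

theorem Ev_nonneg (q : Euc n) : 0 ≤ Ev e q := by unfold Ev; positivity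

theorem Qf_nonneg (q : Euc n) : 0 ≤ Qf e q := by unfold Qf; positivity

theorem isOpen_room : IsOpen (room e) := by
  have h1 : IsOpen {q : Euc n | Ev e q < 1} :=
    isOpen_lt (contDiff_Ev e).continuous continuous_const
  have h2 : IsOpen {q : Euc n | 0 < ⟪e, q⟫} :=
    isOpen_lt continuous_const (contDiff_z e).continuous
  have h3 : IsOpen {q : Euc n | Ff e q < 0} :=
    isOpen_lt (contDiff_Ff e).continuous continuous_const
  exact h1.inter (h2.union h3)

theorem isBounded_room : Bornology.IsBounded (room e) := by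
  refine (Metric.isBounded_ball (x := (0 : Euc n)) (r := 2)).subset fun q hq => ?_
  rw [mem_ball_zero_iff]
  have h := hq.1
  unfold Ev at h
  nlinarith [norm_nonneg q, sq_nonneg ⟪e, q⟫]

/-- if `F < 0` then `E < 1` and `Q > 0` -/
theorem of_Ff_neg {q : Euc n} (h : Ff e q < 0) : Ev e q < 1 ∧ 0 < Qf e q := by
  unfold Ff at h
  have h1 := expNegInvGlue.nonneg (-⟪e, q⟫)
  have h2 := expNegInvGlue.nonneg (Qf e q)
  have h3 : 0 < expNegInvGlue (Qf e q) * (1 - Ev e q) := by linarith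
  constructor
  · by_contra hc
    push Not at hc
    nlinarith
  · by_contra hc
    rw [expNegInvGlue.zero_of_nonpos (not_lt.1 hc)] at h3
    simp at h3

/-- below the level `0` the room is given by `F < 0` -/
theorem mem_room_iff_of_neg {q : Euc n} (hz : ⟪e, q⟫ ≤ 0) : q ∈ room e ↔ Ff e q < 0 := by
  constructor
  · rintro ⟨-, h | h⟩
    · linarith
    · exact h
  · intro h
    exact ⟨(of_Ff_neg e h).1, Or.inr h⟩

theorem mem_room_iff_of_pos {q : Euc n} (hz : 0 < ⟪e, q⟫) : q ∈ room e ↔ Ev e q < 1 :=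
  ⟨fun h => h.1, fun h => ⟨h, Or.inl hz⟩⟩

theorem mem_room_iff_of_Qf {q : Euc n} (hQ : 0 < Qf e q) : q ∈ room e ↔ Ff e q < 0 := by
  rcases le_or_gt ⟪e, q⟫ 0 with hz | hz
  · exact mem_room_iff_of_neg e hz
  · rw [mem_room_iff_of_pos e hz]
    unfold Ff
    rw [expNegInvGlue.zero_of_nonpos (by linarith)]
    have := expNegInvGlue.pos_of_pos hQ
    constructor
    · intro h
      nlinarith
    · intro h
      by_contra hc
      push Not at hc
      nlinarith

/-- in the closure of the room, below the level `0`, one has `Q > 0` -/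
theorem Qf_pos_of_closure {q : Euc n} (hq : q ∈ closure (room e)) (hz : ⟪e, q⟫ < 0) :
    0 < Qf e q := by
  have h1 : ∀ᶠ y in 𝓝 q, ⟪e, y⟫ < 0 :=
    (contDiff_z e).continuous.continuousAt.eventually (gt_mem_nhds hz)
  have h2 := mem_closure_iff_frequently.1 hq
  have h3 : Ff e q ≤ 0 := by
    by_contra hc
    push Not at hc
    have h4 : ∀ᶠ y in 𝓝 q, 0 < Ff e y :=
      (contDiff_Ff e).continuous.continuousAt.eventually (lt_mem_nhds hc)
    obtain ⟨y, hy1, hy2, hy3⟩ := (h2.and_eventually (h1.and h4)).exists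
    have := (mem_room_iff_of_neg e hy2.le).1 hy1
    linarith
  unfold Ff at h3
  have h4 := expNegInvGlue.pos_of_pos (neg_pos.2 hz)
  rcases (Qf_nonneg e q).lt_or_eq with h | h
  · exact h
  · rw [← h, expNegInvGlue.zero] at h3
    linarith

variable {e} (he : ‖e‖ = 1)
include he

theorem inner_ee : ⟪e, e⟫ = 1 := by rw [real_inner_self_eq_norm_sq, he, one_pow]

theorem z_add (q : Euc n) (t : ℝ) : ⟪e, q + t • e⟫ = ⟪e, q⟫ + t := by
  rw [inner_add_right, real_inner_smul_right, inner_ee he, mul_one]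

theorem nsq_add (q : Euc n) (t : ℝ) : ‖q + t • e‖ ^ 2 = ‖q‖ ^ 2 + 2 * t * ⟪e, q⟫ + t ^ 2 := by
  rw [norm_add_sq_real, real_inner_smul_right, norm_smul, he, mul_one, Real.norm_eq_abs, sq_abs,
    real_inner_comm]
  ring

theorem Qf_add (q : Euc n) (t : ℝ) : Qf e (q + t • e) = Qf e q := by
  unfold Qf
  rw [nsq_add he, z_add he]
  ring

theorem Ev_add (q : Euc n) (t : ℝ) : Ev e (q + t • e) = Ev e q + 2 * t * ⟪e, q⟫ + t ^ 2 := by
  unfold Ev
  rw [nsq_add he, z_add he]
  ring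

end Pool.Agent.Y330.PR
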