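import Pool.Agent.Y330.PR.A1

set_option autoImplicit false

open Set Filter Topology

namespace Pool.Agent.Y330.PR

open scoped RealInnerProductSpace ContDiff
open Pool.Agent.H800R2

variable {n : ℕ} {e : Euc n}

/-- a derivative along a line which is not `0` -/
theorem gradient_ne_zero {F : Euc n → ℝ} (hF : ContDiff ℝ ∞ F) {q u : Euc n} {c : ℝ}
    (h : HasDerivAt (fun t : ℝ => F (q + t • u)) c 0) (hc : c ≠ 0) : gradient F q ≠ 0 := by
  intro h0
  have hd : HasFDerivAt F (fderiv ℝ F q) q :=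
    (hF.differentiable (by simp)).differentiableAt.hasFDerivAt
  have hl : HasDerivAt (fun t : ℝ => q + t • u) u 0 := by
    simpa using ((hasDerivAt_id (0 : ℝ)).smul_const u).const_add q
  have hcc : HasDerivAt (fun t : ℝ => F (q + t • u)) (fderiv ℝ F q u) 0 :=
    HasFDerivAt.comp_hasDerivAt (x := (0 : ℝ)) (f := fun t : ℝ => q + t • u)
      (l := F) (l' := fderiv ℝ F q) (by simpa using hd) hl
  have h1 := h.unique hcc
  have h2 : fderiv ℝ F q = 0 := by
    unfold gradient at h0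
    simpa using h0
  rw [h2] at h1
  exact hc (by simpa using h1)

theorem glue_hasDerivAt (x : ℝ) :
    HasDerivAt expNegInvGlue (deriv expNegInvGlue x) x :=
  ((expNegInvGlue.contDiff (n := (⊤ : ℕ∞))).differentiable (by simp)).differentiableAt.hasDerivAt

theorem glue_deriv_nonneg (x : ℝ) : 0 ≤ deriv expNegInvGlue x :=
  expNegInvGlue.monotone.deriv_nonneg

theorem glue_deriv_zero : deriv expNegInvGlue 0 = 0 := by
  have h := expNegInvGlue.hasDerivAt_polynomial_eval_inv_mul 1 0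
  have h1 : (fun x : ℝ => (1 : Polynomial ℝ).eval x⁻¹ * expNegInvGlue x) = expNegInvGlue := by
    ext x
    simp
  rw [h1] at h
  rw [h.deriv, expNegInvGlue.zero, mul_zero]

variable (he : ‖e‖ = 1)
include he

/-- above the level `0` -/
theorem isDef_pos {q : Euc n} (hz : 0 < ⟪e, q⟫) : IsDefFun (room e) q (fun y => Ev e y - 1) := by
  refine ⟨(contDiff_Ev e).sub contDiff_const, ?_, ?_⟩
  · refine gradient_ne_zero ((contDiff_Ev e).sub contDiff_const) (u := e) (c := 2 * ⟪e, q⟫) ?_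
      (by positivity)
    have h : (fun t : ℝ => Ev e (q + t • e) - 1) = fun t => Ev e q + 2 * t * ⟪e, q⟫ + t ^ 2 - 1 := by
      ext t
      rw [Ev_add he]
    rw [h]
    have h1 : HasDerivAt (fun t : ℝ => Ev e q + 2 * t * ⟪e, q⟫ + t ^ 2 - 1)
        (0 + 2 * 1 * ⟪e, q⟫ + ((2 : ℕ) : ℝ) * (0 : ℝ) ^ (2 - 1) * 1) 0 :=
      (((hasDerivAt_const (0 : ℝ) (Ev e q)).add (((hasDerivAt_id (0 : ℝ)).const_mul 2).mul_const
        ⟪e, q⟫)).add ((hasDerivAt_id (0 : ℝ)).pow 2)).sub_const 1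
    convert h1 using 1
    simp
  · have h1 : ∀ᶠ y in 𝓝 q, 0 < ⟪e, y⟫ :=
      (contDiff_z e).continuous.continuousAt.eventually (lt_mem_nhds hz)
    filter_upwards [h1] with y hy
    rw [mem_room_iff_of_pos e hy, sub_neg]

theorem Ff_line (q : Euc n) (t : ℝ) : Ff e (q + t • e) = expNegInvGlue (-(⟪e, q⟫ + t)) -
    expNegInvGlue (Qf e q) * (1 - (Ev e q + 2 * t * ⟪e, q⟫ + t ^ 2)) := by
  unfold Ff
  rw [Qf_add he, Ev_add he, z_add he]

theorem hasDerivAt_Ff_line (q : Euc n) : HasDerivAt (fun t : ℝ => Ff e (q + t • e))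
    (-(deriv expNegInvGlue (-⟪e, q⟫)) + expNegInvGlue (Qf e q) * (2 * ⟪e, q⟫)) 0 := by
  have h : (fun t : ℝ => Ff e (q + t • e)) = fun t => expNegInvGlue (-(⟪e, q⟫ + t)) -
    expNegInvGlue (Qf e q) * (1 - (Ev e q + 2 * t * ⟪e, q⟫ + t ^ 2)) := by
    ext t
    rw [Ff_line he]
  rw [h]
  have h1 : HasDerivAt (fun t : ℝ => -(⟪e, q⟫ + t)) (-1) 0 :=
    ((hasDerivAt_id (0 : ℝ)).const_add ⟪e, q⟫).neg
  have h2 : HasDerivAt (fun t : ℝ => expNegInvGlue (-(⟪e, q⟫ + t)))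
      (deriv expNegInvGlue (-⟪e, q⟫) * (-1)) 0 := by
    have h3 := glue_hasDerivAt (-⟪e, q⟫)
    refine HasDerivAt.comp (0 : ℝ) (h₂ := expNegInvGlue) ?_ h1
    simpa using h3
  have h4 : HasDerivAt (fun t : ℝ => Ev e q + 2 * t * ⟪e, q⟫ + t ^ 2)
      (0 + 2 * 1 * ⟪e, q⟫ + ((2 : ℕ) : ℝ) * (0 : ℝ) ^ (2 - 1) * 1) 0 :=
    (((hasDerivAt_const (0 : ℝ) (Ev e q)).add (((hasDerivAt_id (0 : ℝ)).const_mul 2).mul_const
        ⟪e, q⟫)).add ((hasDerivAt_id (0 : ℝ)).pow 2))
  have h5 := h2.sub ((h4.const_sub 1).const_mul (expNegInvGlue (Qf e q)))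
  refine h5.congr_deriv ?_
  norm_num

/-- below the level `0`, at a point of the frontier -/
theorem isDef_neg {q : Euc n} (hq : q ∈ frontier (room e)) (hz : ⟪e, q⟫ < 0) :
    IsDefFun (room e) q (Ff e) := by
  have hQ : 0 < Qf e q := Qf_pos_of_closure e hq.1 hz
  refine ⟨contDiff_Ff e, ?_, ?_⟩
  · refine gradient_ne_zero (contDiff_Ff e) (hasDerivAt_Ff_line he q) ?_
    have h1 := glue_deriv_nonneg (-⟪e, q⟫)
    have h2 := expNegInvGlue.pos_of_pos hQ
    have h3 : expNegInvGlue (Qf e q) * (2 * ⟪e, q⟫) < 0 :=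
      mul_neg_of_pos_of_neg h2 (by linarith)
    have : -(deriv expNegInvGlue (-⟪e, q⟫)) + expNegInvGlue (Qf e q) * (2 * ⟪e, q⟫) < 0 := by
      linarith
    exact this.ne
  · have h1 : ∀ᶠ y in 𝓝 q, ⟪e, y⟫ < 0 :=
      (contDiff_z e).continuous.continuousAt.eventually (gt_mem_nhds hz)
    filter_upwards [h1] with y hy
    exact mem_room_iff_of_neg e hy.le

omit he in
/-- a direct formula for the gradient of `F` at the points of the ellipsoid at the level `0` -/
theorem hasGradient_Ff {q : Euc n} (hz : ⟪e, q⟫ = 0) (hE : Ev e q = 1) :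
    HasGradientAt (Ff e) (expNegInvGlue (Qf e q) • q) q := by
  rw [hasGradientAt_iff_hasFDerivAt]
  have h1 : HasFDerivAt (fun y : Euc n => ⟪e, y⟫) (innerSL ℝ e) q := (innerSL ℝ e).hasFDerivAt
  have h2 : HasFDerivAt (fun y : Euc n => expNegInvGlue (-⟪e, y⟫))
      (deriv expNegInvGlue (-⟪e, q⟫) • (-(innerSL ℝ e))) q :=
    HasDerivAt.comp_hasFDerivAt (h₂ := expNegInvGlue) (f := fun y : Euc n => -⟪e, y⟫) q
      (glue_hasDerivAt (-⟪e, q⟫)) h1.neg
  have h3 : HasFDerivAt (fun y : Euc n => ‖y‖ ^ 2) (2 • (innerSL ℝ q)) q :=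
    (hasStrictFDerivAt_norm_sq q).hasFDerivAt
  have h4 : HasFDerivAt (fun y : Euc n => Ev e y)
      ((2 : ℝ)⁻¹ • (2 • (innerSL ℝ q) + (2 * ⟪e, q⟫) • (innerSL ℝ e))) q := by
    have h5 := (h3.add (h1.pow 2)).const_mul (2 : ℝ)⁻¹
    refine (h5.congr_of_eventuallyEq (Eventually.of_forall fun y => ?_)).congr_fderiv ?_
    · simp only [Ev, Pi.add_apply]
      ring
    · ext w
      simp
  have h6 : DifferentiableAt ℝ (fun y : Euc n => expNegInvGlue (Qf e y)) q := by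
    have h7 : ContDiff ℝ ∞ (fun y : Euc n => expNegInvGlue (Qf e y)) :=
      (expNegInvGlue.contDiff (n := (⊤ : ℕ∞))).comp (contDiff_Qf e)
    exact (h7.differentiable (by simp)).differentiableAt
  have h8 := h2.sub (h6.hasFDerivAt.mul (h4.const_sub 1))
  refine (h8.congr_of_eventuallyEq (Eventually.of_forall fun y => ?_)).congr_fderiv ?_
  · simp only [Ff, Pi.sub_apply, Pi.mul_apply]
  · ext w
    simp [hz, hE, glue_deriv_zero]

omit he in
/-- at the level `0`, off the focal sphere, at a point of the frontier -/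
theorem isDef_zero {q : Euc n} (hq : q ∈ frontier (room e)) (hz : ⟪e, q⟫ = 0)
    (hQ : 0 < Qf e q) : Ev e q = 1 ∧ IsDefFun (room e) q (Ff e) := by
  have hloc : ∀ᶠ y in 𝓝 q, (y ∈ room e ↔ Ff e y < 0) := by
    have h1 : ∀ᶠ y in 𝓝 q, 0 < Qf e y :=
      (contDiff_Qf e).continuous.continuousAt.eventually (lt_mem_nhds hQ)
    filter_upwards [h1] with y hy
    exact mem_room_iff_of_Qf e hy
  have hF : Ff e q = 0 := by
    rw [(isOpen_room e).frontier_eq] at hq
    have h1 : ¬ Ff e q < 0 := fun hc => hq.2 (hloc.self_of_nhds.2 hc)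
    refine le_antisymm ?_ (not_lt.1 h1)
    by_contra hcon
    push Not at hcon
    have h2 : ∀ᶠ y in 𝓝 q, 0 < Ff e y :=
      (contDiff_Ff e).continuous.continuousAt.eventually (lt_mem_nhds hcon)
    have h3 := mem_closure_iff_frequently.1 hq.1
    obtain ⟨y, hy1, hy2, hy3⟩ := (h3.and_eventually (h2.and hloc)).exists
    exact absurd (hy3.1 hy1) (not_lt.2 hy2.le)
  have hpos := expNegInvGlue.pos_of_pos hQ
  have hE : Ev e q = 1 := by
    unfold Ff at hF
    rw [hz, neg_zero, expNegInvGlue.zero, zero_sub, neg_eq_zero] at hF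
    rcases mul_eq_zero.1 hF with h | h
    · exact absurd h hpos.ne'
    · linarith
  refine ⟨hE, contDiff_Ff e, ?_, hloc⟩
  rw [(hasGradient_Ff hz hE).gradient]
  intro h
  rcases smul_eq_zero.1 h with h | h
  · exact hpos.ne' h
  · rw [h] at hE
    simp [Ev] at hE

end Pool.Agent.Y330.PR
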