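import Pool.Agent.Y330.PR.A2

set_option autoImplicit false

open Set Filter Topology

namespace Pool.Agent.Y330.PR

open scoped RealInnerProductSpace ContDiff
open Pool.Agent.H800R2

variable {n : ℕ} {e : Euc n}

/-- a smooth function which is `log (1 - t)` near `1 / 2`, and is `≤ 0` for `t ≥ 0` -/
noncomputable def lam (t : ℝ) : ℝ := Real.log (1 - t) * Real.smoothTransition (7 / 2 - 4 * t)

theorem contDiff_lam : ContDiff ℝ ∞ lam := by
  rw [contDiff_iff_contDiffAt]
  intro t
  rcases lt_or_ge t 1 with ht | ht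
  · have h1 : ContDiffAt ℝ ∞ (fun t : ℝ => Real.log (1 - t)) t :=
      (contDiffAt_const.sub contDiffAt_id).log (by simp; linarith)
    have h2 : ContDiffAt ℝ ∞ (fun t : ℝ => Real.smoothTransition (7 / 2 - 4 * t)) t :=
      ((Real.smoothTransition.contDiff (n := (⊤ : ℕ∞))).comp
        (contDiff_const.sub (contDiff_const.mul contDiff_id))).contDiffAt
    exact h1.mul h2
  · have h1 : lam =ᶠ[𝓝 t] fun _ => (0 : ℝ) := by
      filter_upwards [lt_mem_nhds (show (7 / 8 : ℝ) < t by linarith)] with s hs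
      unfold lam
      rw [Real.smoothTransition.zero_of_nonpos (by linarith), mul_zero]
    exact contDiffAt_const.congr_of_eventuallyEq h1

theorem lam_nonpos {t : ℝ} (ht : 0 ≤ t) : lam t ≤ 0 := by
  unfold lam
  rcases lt_or_ge t (7 / 8) with h | h
  · exact mul_nonpos_of_nonpos_of_nonneg (Real.log_nonpos (by linarith) (by linarith))
      (Real.smoothTransition.nonneg _)
  · rw [Real.smoothTransition.zero_of_nonpos (by linarith), mul_zero]

theorem lam_eq {t : ℝ} (ht : t ≤ 5 / 8) : lam t = Real.log (1 - t) := by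
  unfold lam
  rw [Real.smoothTransition.one_of_one_le (by linarith), mul_one]

/-- `θ(s) < θ(Q) w` in explicit form -/
theorem glue_lt_iff {s Q w : ℝ} (hs : 0 < s) (hQ : 0 ≤ Q) (hw : 0 < w) (hw1 : w < 1) :
    expNegInvGlue s < expNegInvGlue Q * w ↔ s < Q / (1 - Q * Real.log w) := by
  have hlog : Real.log w < 0 := Real.log_neg hw hw1
  rcases hQ.lt_or_eq with hQ | hQ
  · have hden : 0 < 1 - Q * Real.log w := by nlinarith
    have e1 : expNegInvGlue s = Real.exp (-s⁻¹) := by
      unfold expNegInvGlue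
      rw [if_neg (not_le.2 hs)]
    have e2 : expNegInvGlue Q = Real.exp (-Q⁻¹) := by
      unfold expNegInvGlue
      rw [if_neg (not_le.2 hQ)]
    have e3 : Real.exp (-Q⁻¹) * w = Real.exp (-Q⁻¹ + Real.log w) := by
      rw [Real.exp_add, Real.exp_log hw]
    rw [e1, e2, e3, Real.exp_lt_exp, lt_div_iff₀ hden]
    have e4 : (-s⁻¹ < -Q⁻¹ + Real.log w) ↔ (s * (1 - Q * Real.log w) < Q) := by
      have h1 : -Q⁻¹ + Real.log w - (-s⁻¹) = (Q - s * (1 - Q * Real.log w)) / (s * Q) := by
        field_simp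
        ring
      rw [← sub_pos, h1, div_pos_iff_of_pos_right (by positivity), sub_pos]
    exact e4
  · rw [← hQ, expNegInvGlue.zero, zero_mul, zero_div]
    constructor
    · intro h
      exact absurd h (not_lt.2 (expNegInvGlue.nonneg s))
    · intro h
      exact absurd h (not_lt.2 hs.le)

/-- the local defining function near the focal sphere -/
noncomputable def Gf (e : Euc n) (q : Euc n) : ℝ :=
  -⟪e, q⟫ - Qf e q / (1 - Qf e q * lam (Ev e q))

theorem den_pos (e q : Euc n) : 0 < 1 - Qf e q * lam (Ev e q) := by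
  have h1 := lam_nonpos (Ev_nonneg e q)
  have h2 := Qf_nonneg e q
  nlinarith [mul_nonneg h2 (neg_nonneg.2 h1)]

theorem contDiff_Gf (e : Euc n) : ContDiff ℝ ∞ (Gf e) := by
  refine (contDiff_z e).neg.sub ((contDiff_Qf e).div ?_ fun q => (den_pos e q).ne')
  exact contDiff_const.sub ((contDiff_Qf e).mul (contDiff_lam.comp (contDiff_Ev e)))

/-- at the points of the focal sphere -/
theorem isDef_focal (he : ‖e‖ = 1) {q : Euc n} (hz : ⟪e, q⟫ = 0) (hQ : Qf e q = 0) :
    IsDefFun (room e) q (Gf e) := by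
  have hE : Ev e q = 1 / 2 := by
    unfold Qf at hQ
    unfold Ev
    rw [hz] at hQ ⊢
    have : ‖q‖ ^ 2 - 0 ^ 2 - 1 = 0 := by
      exact pow_eq_zero_iff (two_ne_zero) |>.1 hQ
    linarith
  refine ⟨contDiff_Gf e, ?_, ?_⟩
  · refine gradient_ne_zero (contDiff_Gf e) (u := e) (c := -1) ?_ (by norm_num)
    have h : (fun t : ℝ => Gf e (q + t • e)) = fun t => -t := by
      ext t
      unfold Gf
      rw [z_add he, Qf_add he, hQ, hz]
      simp
    rw [h]
    exact (hasDerivAt_id (0 : ℝ)).neg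
  · have h1 : ∀ᶠ y in 𝓝 q, Ev e y < 5 / 8 :=
      (contDiff_Ev e).continuous.continuousAt.eventually (gt_mem_nhds (by rw [hE]; norm_num))
    have h2 : ∀ᶠ y in 𝓝 q, 0 < Ev e y :=
      (contDiff_Ev e).continuous.continuousAt.eventually (lt_mem_nhds (by rw [hE]; norm_num))
    filter_upwards [h1, h2] with y hy hy2
    have hlam : lam (Ev e y) = Real.log (1 - Ev e y) := lam_eq hy.le
    unfold Gf
    rw [hlam]
    have hden := den_pos e y
    rw [hlam] at hden
    have hq0 : 0 ≤ Qf e y / (1 - Qf e y * Real.log (1 - Ev e y)) :=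
      div_nonneg (Qf_nonneg e y) hden.le
    rcases lt_trichotomy ⟪e, y⟫ 0 with hz1 | hz1 | hz1
    · rw [mem_room_iff_of_neg e hz1.le]
      have h3 := glue_lt_iff (s := -⟪e, y⟫) (Q := Qf e y) (w := 1 - Ev e y) (by linarith)
        (Qf_nonneg e y) (by linarith) (by linarith)
      unfold Ff
      rw [sub_neg, h3, sub_neg]
    · rw [mem_room_iff_of_neg e hz1.le]
      unfold Ff
      rw [hz1, neg_zero, expNegInvGlue.zero, zero_sub, zero_sub, neg_lt_zero, neg_lt_zero]
      rcases (Qf_nonneg e y).lt_or_eq with h | h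
      · exact ⟨fun _ => div_pos h hden,
          fun _ => mul_pos (expNegInvGlue.pos_of_pos h) (by linarith)⟩
      · rw [← h]
        simp
    · rw [mem_room_iff_of_pos e hz1]
      constructor
      · intro _
        linarith
      · intro _
        linarith

/-- the room is connected -/
theorem isConnected_room (he : ‖e‖ = 1) : IsConnected (room e) := by
  set H : Set (Euc n) := {q | 0 < ⟪e, q⟫ ∧ Ev e q < 1} with hH
  have hHsub : H ⊆ room e := fun q hq => (mem_room_iff_of_pos e hq.1).2 hq.2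
  have hbase : (1 / 2 : ℝ) • e ∈ H := by
    constructor
    · rw [real_inner_smul_right, inner_ee he]
      norm_num
    · unfold Ev
      rw [real_inner_smul_right, inner_ee he, norm_smul, he]
      norm_num
  have hconv : Convex ℝ H := by
    intro p hp q hq a b ha hb hab
    have hz : 0 < ⟪e, a • p + b • q⟫ := by
      rw [inner_add_right, real_inner_smul_right, real_inner_smul_right]
      rcases ha.lt_or_eq with h | h
      · have := mul_pos h hp.1
        have := mul_nonneg hb hq.1.le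
        linarith
      · have hb1 : b = 1 := by linarith
        rw [← h, hb1]
        simpa using hq.1
    refine ⟨hz, ?_⟩
    have h1 : ‖a • p + b • q‖ ^ 2 ≤ a * ‖p‖ ^ 2 + b * ‖q‖ ^ 2 := by
      have h2 : ‖a • p + b • q‖ ≤ a * ‖p‖ + b * ‖q‖ := by
        refine (norm_add_le _ _).trans ?_
        rw [norm_smul, norm_smul, Real.norm_of_nonneg ha, Real.norm_of_nonneg hb]
      have h3 : ‖a • p + b • q‖ ^ 2 ≤ (a * ‖p‖ + b * ‖q‖) ^ 2 :=
        pow_le_pow_left₀ (norm_nonneg _) h2 2
      have h4 : (a * ‖p‖ + b * ‖q‖) ^ 2 = a * ‖p‖ ^ 2 + b * ‖q‖ ^ 2 -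
          a * b * (‖p‖ - ‖q‖) ^ 2 := by
        have : a = 1 - b := by linarith
        subst this
        ring
      have h5 : 0 ≤ a * b * (‖p‖ - ‖q‖) ^ 2 := by positivity
      linarith
    have h6 : ⟪e, a • p + b • q⟫ ^ 2 ≤ a * ⟪e, p⟫ ^ 2 + b * ⟪e, q⟫ ^ 2 := by
      rw [inner_add_right, real_inner_smul_right, real_inner_smul_right]
      have h4 : (a * ⟪e, p⟫ + b * ⟪e, q⟫) ^ 2 = a * ⟪e, p⟫ ^ 2 + b * ⟪e, q⟫ ^ 2 -
          a * b * (⟪e, p⟫ - ⟪e, q⟫) ^ 2 := by
        have : a = 1 - b := by linarith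
        subst this
        ring
      have h5 : 0 ≤ a * b * (⟪e, p⟫ - ⟪e, q⟫) ^ 2 := by positivity
      linarith
    have hp2 := hp.2
    have hq2 := hq.2
    unfold Ev at hp2 hq2 ⊢
    have h7 : a * ((‖p‖ ^ 2 + ⟪e, p⟫ ^ 2) / 2) + b * ((‖q‖ ^ 2 + ⟪e, q⟫ ^ 2) / 2) < 1 := by
      rcases ha.lt_or_eq with h | h
      · have h8 := mul_lt_mul_of_pos_left hp2 h
        have h9 := mul_le_mul_of_nonneg_left hq2.le hb
        linarith
      · have hb1 : b = 1 := by linarith
        rw [← h, hb1]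
        simpa using hq2
    linarith
  refine ⟨⟨_, hHsub hbase⟩, isPreconnected_of_forall ((1 / 2 : ℝ) • e) fun q hq => ?_⟩
  rcases lt_or_ge 0 ⟪e, q⟫ with hz | hz
  · exact ⟨H, hHsub, hbase, ⟨hz, hq.1⟩, hconv.isPreconnected⟩
  · set z : ℝ := ⟪e, q⟫ with hzdef
    set R : ℝ := ‖q‖ ^ 2 - z ^ 2 with hR
    have hE := hq.1
    unfold Ev at hE
    rw [← hzdef] at hE
    have hR2 : R < 2 := by nlinarith [sq_nonneg z]
    have hR0 : 0 ≤ R := by
      have h1 : |⟪e, q⟫| ≤ ‖e‖ * ‖q‖ := abs_real_inner_le_norm e q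
      rw [he, one_mul, ← hzdef] at h1
      have h2 : z ^ 2 ≤ ‖q‖ ^ 2 := by
        rw [← sq_abs z]
        exact pow_le_pow_left₀ (abs_nonneg _) h1 2
      linarith
    set t₁ : ℝ := (2 - R) / 4 with ht₁
    have ht0 : 0 < t₁ := by rw [ht₁]; linarith
    have ht2 : R + 2 * t₁ ^ 2 < 2 := by rw [ht₁]; nlinarith
    set g : ℝ → Euc n := fun t => q + t • e with hg
    have hgc : Continuous g := by rw [hg]; fun_prop
    have hEt : ∀ t, Ev e (g t) = (R + 2 * (z + t) ^ 2) / 2 := by
      intro t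
      rw [hg]
      simp only
      rw [Ev_add he]
      unfold Ev
      rw [← hzdef, hR]
      ring
    have hzt : ∀ t, ⟪e, g t⟫ = z + t := fun t => z_add he q t
    have htop : g (t₁ - z) ∈ H := by
      constructor
      · rw [hzt]
        linarith
      · rw [hEt]
        have : z + (t₁ - z) = t₁ := by ring
        rw [this]
        linarith
    have hseg : g '' Icc 0 (t₁ - z) ⊆ room e := by
      rintro _ ⟨t, ht, rfl⟩
      rcases lt_or_ge 0 (z + t) with h | h
      · rw [mem_room_iff_of_pos e (by rw [hzt]; exact h), hEt]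
        have : (z + t) ^ 2 ≤ t₁ ^ 2 := pow_le_pow_left₀ h.le (by linarith [ht.2]) 2
        linarith
      · rw [mem_room_iff_of_neg e (by rw [hzt]; exact h)]
        have hFq := (mem_room_iff_of_neg e hz).1 hq
        refine lt_of_le_of_lt ?_ hFq
        have h1 : (z + t) ^ 2 ≤ z ^ 2 := by nlinarith [ht.1]
        have h2 : Ev e (g t) ≤ Ev e q := by
          rw [hEt]
          unfold Ev
          rw [← hzdef, hR]
          linarith
        unfold Ff
        rw [hzt, ← hzdef]
        have h3 : Qf e (g t) = Qf e q := Qf_add he q t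
        rw [h3]
        have h4 : expNegInvGlue (-(z + t)) ≤ expNegInvGlue (-z) :=
          expNegInvGlue.monotone (by linarith [ht.1])
        have h5 := mul_le_mul_of_nonneg_left (sub_le_sub_left h2 1)
          (expNegInvGlue.nonneg (Qf e q))
        linarith
    have hpre : IsPreconnected (g '' Icc 0 (t₁ - z)) :=
      isPreconnected_Icc.image g hgc.continuousOn
    have hle : 0 ≤ t₁ - z := by linarith
    refine ⟨H ∪ g '' Icc 0 (t₁ - z), union_subset hHsub hseg, Or.inl hbase,
      Or.inr ⟨0, ⟨le_rfl, hle⟩, by rw [hg]; simp⟩, ?_⟩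
    exact IsPreconnected.union (g (t₁ - z)) htop ⟨t₁ - z, ⟨hle, le_rfl⟩, rfl⟩
      hconv.isPreconnected hpre

theorem isSmoothDomain_room (he : ‖e‖ = 1) : IsSmoothDomain (room e) where
  isOpen := isOpen_room e
  isConnected := isConnected_room he
  isBounded := isBounded_room e
  smooth := by
    intro q hq
    rcases lt_trichotomy ⟪e, q⟫ 0 with hz | hz | hz
    · exact ⟨_, isDef_neg he hq hz⟩
    · rcases (Qf_nonneg e q).lt_or_eq with h | h
      · exact ⟨_, (isDef_zero hq hz h).2⟩
      · exact ⟨_, isDef_focal he hz h.symm⟩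
    · exact ⟨_, isDef_pos he hz⟩

end Pool.Agent.Y330.PR
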