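import Pool.Agent.Y330.PR.A3

set_option autoImplicit false

open Set Filter Topology

namespace Pool.Agent.Y330.PR

open scoped RealInnerProductSpace ContDiff
open Pool.Agent.H800R2

variable {n : ℕ} {e : Euc n}

/-- the square of the distance to the axis -/
noncomputable def Rf (e q : Euc n) : ℝ := ‖q‖ ^ 2 - ⟪e, q⟫ ^ 2

/-- the integral of the billiard in the ellipsoid -/
noncomputable def Jf (e p v : Euc n) : ℝ := ‖⟪e, p⟫ • v - ⟪e, v⟫ • p‖ ^ 2 - ⟪e, v⟫ ^ 2

/-- the outer side of the phase space -/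
def St (e p v : Euc n) : Prop :=
  (⟪e, p⟫ < 0 ∧ 1 < Rf e p) ∨ (0 ≤ ⟪e, p⟫ ∧ 0 < Jf e p v)

theorem z_line (e p v : Euc n) (s : ℝ) : ⟪e, p + s • v⟫ = ⟪e, p⟫ + s * ⟪e, v⟫ := by
  rw [inner_add_right, real_inner_smul_right]

theorem Jf_line (e p v : Euc n) (s : ℝ) : Jf e (p + s • v) v = Jf e p v := by
  unfold Jf
  rw [z_line]
  have : (⟪e, p⟫ + s * ⟪e, v⟫) • v - ⟪e, v⟫ • (p + s • v) = ⟪e, p⟫ • v - ⟪e, v⟫ • p := by
    rw [add_smul, smul_add, smul_smul, mul_comm s]
    abel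
  rw [this]

theorem Jf_zero {p v : Euc n} (hz : ⟪e, p⟫ = 0) : Jf e p v = ⟪e, v⟫ ^ 2 * (Rf e p - 1) := by
  unfold Jf Rf
  rw [hz, zero_smul, zero_sub, norm_neg, norm_smul, mul_pow, Real.norm_eq_abs, sq_abs]
  ring

theorem Qf_eq (q : Euc n) : Qf e q = (Rf e q - 1) ^ 2 := rfl

theorem continuous_Rf (e : Euc n) : Continuous (Rf e) := by
  unfold Rf
  exact (continuous_norm.pow 2).sub ((contDiff_z e).continuous.pow 2)

theorem Rf_ne_of_mem {q : Euc n} (hq : q ∈ room e) (hz : ⟪e, q⟫ ≤ 0) : Rf e q ≠ 1 := by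
  intro h
  have h1 := (of_Ff_neg e ((mem_room_iff_of_neg e hz).1 hq)).2
  rw [Qf_eq, h] at h1
  simp at h1

theorem Rf_ne_of_closure {q : Euc n} (hq : q ∈ closure (room e)) (hz : ⟪e, q⟫ < 0) :
    Rf e q ≠ 1 := by
  intro h
  have h1 := Qf_pos_of_closure e hq hz
  rw [Qf_eq, h] at h1
  simp at h1

/-- a straight line cannot come up to the focal sphere from below -/
theorem no_focal {b v : Euc n} {σ₀ : ℝ} (hσ : 0 < σ₀) (hb : ⟪e, b⟫ = 0) (hR : Rf e b = 1)
    (hw : 0 < ⟪e, v⟫) (hin : ∀ σ ∈ Ioo 0 σ₀, b - σ • v ∈ room e) : False := by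
  set M : ℝ := 2 * |⟪b, v⟫| + |‖v‖ ^ 2 - ⟪e, v⟫ ^ 2| with hM
  have hM0 : 0 ≤ M := by positivity
  set w : ℝ := ⟪e, v⟫ with hwdef
  set σ : ℝ := min (σ₀ / 2) (min 1 (w / (M ^ 2 + 1) / 2)) with hσd
  have hσ1 : 0 < σ := by
    rw [hσd]
    refine lt_min (by linarith) (lt_min one_pos ?_)
    positivity
  have hσ2 : σ < σ₀ := lt_of_le_of_lt (min_le_left _ _) (by linarith)
  have hσ3 : σ ≤ 1 := (min_le_right _ _).trans (min_le_left _ _)
  have hσ4 : σ * (M ^ 2 + 1) < w := by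
    have h1 : σ ≤ w / (M ^ 2 + 1) / 2 := (min_le_right _ _).trans (min_le_right _ _)
    have h2 : σ * (M ^ 2 + 1) ≤ w / (M ^ 2 + 1) / 2 * (M ^ 2 + 1) :=
      mul_le_mul_of_nonneg_right h1 (by positivity)
    have h3 : w / (M ^ 2 + 1) / 2 * (M ^ 2 + 1) = w / 2 := by
      field_simp
    linarith
  have hm := hin σ ⟨hσ1, hσ2⟩
  have hz : ⟪e, b - σ • v⟫ = -(σ * w) := by
    rw [inner_sub_right, real_inner_smul_right, hb, zero_sub]
  have hzn : ⟪e, b - σ • v⟫ < 0 := by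
    rw [hz]
    have := mul_pos hσ1 hw
    linarith
  have hF := (mem_room_iff_of_neg e hzn.le).1 hm
  have hlt : σ * w < Qf e (b - σ • v) := by
    unfold Ff at hF
    rw [hz, neg_neg] at hF
    have h1 : expNegInvGlue (Qf e (b - σ • v)) * (1 - Ev e (b - σ • v)) ≤
        expNegInvGlue (Qf e (b - σ • v)) := by
      have h2 := mul_nonneg (expNegInvGlue.nonneg (Qf e (b - σ • v))) (Ev_nonneg e (b - σ • v))
      linarith
    by_contra hc
    have h3 := expNegInvGlue.monotone (not_lt.1 hc)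
    linarith
  have hRe : Rf e (b - σ • v) - 1 = -σ * (2 * ⟪b, v⟫ - σ * (‖v‖ ^ 2 - w ^ 2)) := by
    unfold Rf at hR ⊢
    rw [hb] at hR
    rw [norm_sub_sq_real, real_inner_smul_right, norm_smul, mul_pow, Real.norm_eq_abs, sq_abs, hz]
    linear_combination hR
  have hQ : Qf e (b - σ • v) ≤ σ ^ 2 * M ^ 2 := by
    rw [Qf_eq, hRe]
    have h1 : (-σ * (2 * ⟪b, v⟫ - σ * (‖v‖ ^ 2 - w ^ 2))) ^ 2 =
        σ ^ 2 * |2 * ⟪b, v⟫ - σ * (‖v‖ ^ 2 - w ^ 2)| ^ 2 := by
      rw [sq_abs]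
      ring
    rw [h1]
    refine mul_le_mul_of_nonneg_left (pow_le_pow_left₀ (abs_nonneg _) ?_ 2) (sq_nonneg _)
    refine (abs_sub _ _).trans ?_
    rw [abs_mul, abs_mul, abs_of_pos hσ1, abs_two]
    have h2 : σ * |‖v‖ ^ 2 - w ^ 2| ≤ 1 * |‖v‖ ^ 2 - w ^ 2| :=
      mul_le_mul_of_nonneg_right hσ3 (abs_nonneg _)
    linarith
  have h5 : σ * w < σ * (σ * M ^ 2) := by
    calc σ * w < σ ^ 2 * M ^ 2 := hlt.trans_le hQ
      _ = σ * (σ * M ^ 2) := by ring
  have h6 : w < σ * M ^ 2 := lt_of_mul_lt_mul_left h5 hσ1.le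
  nlinarith

/-- a continuous function which is not `1` on a half-open interval stays on one side -/
theorem ivt_gt {g : ℝ → ℝ} (hg : Continuous g) {a b : ℝ} (hab : a ≤ b) (ha : 1 < g a)
    (h : ∀ s ∈ Ioo a b, g s ≠ 1) (hb : g b ≠ 1) : 1 < g b := by
  by_contra hc
  have hc' : g b < 1 := lt_of_le_of_ne (not_lt.1 hc) hb
  have h1 : (1 : ℝ) ∈ g '' Icc a b :=
    intermediate_value_Icc' hab hg.continuousOn ⟨hc'.le, ha.le⟩
  obtain ⟨s, hs, hs1⟩ := h1
  rcases hs.1.lt_or_eq with h2 | h2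
  · rcases hs.2.lt_or_eq with h3 | h3
    · exact h s ⟨h2, h3⟩ hs1
    · rw [h3] at hs1
      exact hb hs1
  · rw [← h2] at hs1
    exact ha.ne' hs1

/-- along a segment the photon stays on the outer side -/
theorem St_segment {p v : Euc n} {τ : ℝ} (hτ : 0 < τ) (hin : ∀ s ∈ Ioo 0 τ, p + s • v ∈ room e)
    (h : St e p v) : St e (p + τ • v) v := by
  have hgc : Continuous fun s : ℝ => p + s • v := by fun_prop
  have hcl : p + τ • v ∈ closure (room e) := by
    have h1 : τ ∈ closure (Ioo 0 τ) := by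
      rw [closure_Ioo hτ.ne]
      exact ⟨hτ.le, le_rfl⟩
    have h2 := image_closure_subset_closure_image hgc (mem_image_of_mem _ h1)
    refine closure_mono ?_ h2
    rintro _ ⟨s, hs, rfl⟩
    exact hin s hs
  have hRc : Continuous fun s : ℝ => Rf e (p + s • v) := (continuous_Rf e).comp hgc
  set z : ℝ := ⟪e, p⟫ with hz
  set w : ℝ := ⟪e, v⟫ with hw
  have hzl : ∀ s, ⟪e, p + s • v⟫ = z + s * w := z_line e p v
  rcases lt_or_ge ⟪e, p + τ • v⟫ 0 with hend | hend
  · left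
    refine ⟨hend, ?_⟩
    have hne := Rf_ne_of_closure hcl hend
    rw [hzl] at hend
    rcases h with ⟨h1, h2⟩ | ⟨h1, h2⟩
    · refine ivt_gt hRc hτ.le (by simpa using h2) (fun s hs => ?_) hne
      refine Rf_ne_of_mem (hin s hs) ?_
      rw [hzl]
      have h3 : s * w ≤ max 0 (τ * w) := by
        rcases le_total 0 w with h4 | h4
        · exact (mul_le_mul_of_nonneg_right hs.2.le h4).trans (le_max_right _ _)
        · exact (mul_nonpos_of_nonneg_of_nonpos hs.1.le h4).trans (le_max_left _ _)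
      rcases max_choice 0 (τ * w) with h4 | h4 <;> rw [h4] at h3 <;> linarith
    · have hwneg : w < 0 := by
        by_contra hc
        push Not at hc
        nlinarith
      set s₀ : ℝ := z / (-w) with hs₀
      have hs0 : 0 ≤ s₀ := div_nonneg h1 (by linarith)
      have hwne : w ≠ 0 := hwneg.ne
      have hsw : z + s₀ * w = 0 := by
        rw [hs₀, div_neg, neg_mul, div_mul_cancel₀ _ hwne, add_neg_cancel]
      have hsτ : s₀ < τ := by nlinarith
      have hJ : Jf e (p + s₀ • v) v = w ^ 2 * (Rf e (p + s₀ • v) - 1) :=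
        Jf_zero (by rw [hzl]; exact hsw)
      rw [Jf_line] at hJ
      have hR0 : 1 < Rf e (p + s₀ • v) := by
        have h3 : 0 < w ^ 2 := by nlinarith
        rw [hJ] at h2
        have := (mul_pos_iff_of_pos_left h3).1 h2
        linarith
      refine ivt_gt hRc hsτ.le hR0 (fun s hs => ?_) hne
      refine Rf_ne_of_mem (hin s ⟨lt_of_le_of_lt hs0 hs.1, hs.2⟩) ?_
      rw [hzl]
      nlinarith [hs.1]
  · right
    refine ⟨hend, ?_⟩
    rw [Jf_line]
    rw [hzl] at hend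
    rcases h with ⟨h1, h2⟩ | ⟨h1, h2⟩
    · have hwpos : 0 < w := by
        by_contra hc
        push Not at hc
        nlinarith
      set s₀ : ℝ := -z / w with hs₀
      have hs0 : 0 < s₀ := div_pos (by linarith) hwpos
      have hsw : z + s₀ * w = 0 := by
        rw [hs₀]
        field_simp
        ring
      have hsτ : s₀ ≤ τ := by nlinarith
      have hz0 : ⟪e, p + s₀ • v⟫ = 0 := by rw [hzl]; exact hsw
      have hne : Rf e (p + s₀ • v) ≠ 1 := by
        intro hR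
        refine no_focal hs0 hz0 hR hwpos fun σ hσ => ?_
        have h3 : p + s₀ • v - σ • v = p + (s₀ - σ) • v := by
          rw [sub_smul]
          abel
        rw [h3]
        exact hin _ ⟨by linarith [hσ.2], by linarith [hσ.1]⟩
      have hR0 : 1 < Rf e (p + s₀ • v) := by
        refine ivt_gt hRc hs0.le (by simpa using h2) (fun s hs => ?_) hne
        refine Rf_ne_of_mem (hin s ⟨hs.1, lt_of_lt_of_le hs.2 hsτ⟩) ?_
        rw [hzl]
        nlinarith [hs.2]
      have hJ : Jf e (p + s₀ • v) v = w ^ 2 * (Rf e (p + s₀ • v) - 1) := Jf_zero hz0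
      rw [Jf_line] at hJ
      rw [hJ]
      have : 0 < Rf e (p + s₀ • v) - 1 := by linarith
      positivity
    · exact h2

/-- the reflection in the ellipsoid preserves the integral -/
theorem Jf_reflect (he : ‖e‖ = 1) {b v : Euc n} (hb : Ev e b = 1) :
    Jf e b (v - (2 * (⟪v, b + ⟪e, b⟫ • e⟫ / ‖b + ⟪e, b⟫ • e‖ ^ 2)) • (b + ⟪e, b⟫ • e)) =
      Jf e b v := by
  set z : ℝ := ⟪e, b⟫ with hz
  set w : ℝ := ⟪e, v⟫ with hw
  have hnb : ‖b‖ ^ 2 = 2 - z ^ 2 := by
    unfold Ev at hb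
    rw [← hz] at hb
    linarith
  have hN2 : ‖b + z • e‖ ^ 2 = 2 + 2 * z ^ 2 := by
    rw [nsq_add he, ← hz, hnb]
    ring
  have hvN : ⟪v, b + z • e⟫ = ⟪b, v⟫ + z * w := by
    rw [inner_add_right, real_inner_smul_right, real_inner_comm b v, real_inner_comm e v]
  set k : ℝ := 2 * (⟪v, b + z • e⟫ / ‖b + z • e‖ ^ 2) with hk
  have hkN : k * (2 + 2 * z ^ 2) = 2 * (⟪b, v⟫ + z * w) := by
    rw [hk, hvN, hN2]
    field_simp
  have hw' : ⟪e, v - k • (b + z • e)⟫ = w - 2 * k * z := by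
    rw [inner_sub_right, real_inner_smul_right, inner_add_right, real_inner_smul_right,
      inner_ee he, ← hz, ← hw]
    ring
  unfold Jf
  rw [hw', ← hz, ← hw]
  have hvec : z • (v - k • (b + z • e)) - (w - 2 * k * z) • b =
      (z • v - w • b) + (k * z) • (b - z • e) := by
    module
  rw [hvec, norm_add_sq_real, norm_smul, mul_pow, Real.norm_eq_abs, sq_abs,
    real_inner_smul_right]
  have h1 : ⟪z • v - w • b, b - z • e⟫ = z * ⟪b, v⟫ - w * ‖b‖ ^ 2 := by
    rw [inner_sub_left, inner_sub_right, inner_sub_right, real_inner_smul_left,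
      real_inner_smul_left, real_inner_smul_left, real_inner_smul_left, real_inner_smul_right,
      real_inner_smul_right, real_inner_self_eq_norm_sq, real_inner_comm b v,
      real_inner_comm e v, real_inner_comm e b, ← hz, ← hw]
    ring
  have h2 : ‖b - z • e‖ ^ 2 = ‖b‖ ^ 2 - z ^ 2 := by
    rw [norm_sub_sq_real, real_inner_smul_right, norm_smul, he, mul_one, Real.norm_eq_abs,
      sq_abs, real_inner_comm e b, ← hz]
    ring
  rw [h1, h2, hnb]
  linear_combination (-(k * z ^ 2)) * hkN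

end Pool.Agent.Y330.PR
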