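import Pool.Agent.Y330.PR.A4

set_option autoImplicit false

open Set Filter Topology

namespace Pool.Agent.Y330.PR

open scoped RealInnerProductSpace ContDiff
open Pool.Agent.H800R2

variable {n : ℕ} {e : Euc n}

/-- the gradient of `E` -/
theorem hasGradient_Ev (e q : Euc n) : HasGradientAt (fun y => Ev e y - 1) (q + ⟪e, q⟫ • e) q := by
  rw [hasGradientAt_iff_hasFDerivAt]
  have h1 : HasFDerivAt (fun y : Euc n => ⟪e, y⟫) (innerSL ℝ e) q := (innerSL ℝ e).hasFDerivAt
  have h3 : HasFDerivAt (fun y : Euc n => ‖y‖ ^ 2) (2 • (innerSL ℝ q)) q :=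
    (hasStrictFDerivAt_norm_sq q).hasFDerivAt
  have h5 := ((h3.add (h1.pow 2)).const_mul (2 : ℝ)⁻¹).sub_const 1
  refine (h5.congr_of_eventuallyEq (Eventually.of_forall fun y => ?_)).congr_fderiv ?_
  · simp only [Ev, Pi.add_apply]
    ring
  · ext w
    simp
    ring

/-- the normal vector on the upper side -/
theorem normal_upper (he : ‖e‖ = 1) {b ν v : Euc n} (hb : b ∈ frontier (room e))
    (hz : 0 ≤ ⟪e, b⟫) (hJ : 0 < Jf e b v) (hν : IsOuterNormal (room e) b ν) :
    Ev e b = 1 ∧ ν = ‖b + ⟪e, b⟫ • e‖⁻¹ • (b + ⟪e, b⟫ • e) := by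
  obtain ⟨F, hF, rfl⟩ := hν
  rcases hz.lt_or_eq with hz | hz
  · have hD := isDef_pos he hz
    have hE : Ev e b = 1 := by
      have := hD.eq_zero (isOpen_room e) hb
      linarith
    refine ⟨hE, ?_⟩
    rw [hF.normal_unique hD (isOpen_room e) hb, (hasGradient_Ev e b).gradient]
  · have hR : Rf e b ≠ 1 := by
      intro h
      rw [Jf_zero hz.symm, h] at hJ
      simp at hJ
    have hQ : 0 < Qf e b := by
      rw [Qf_eq]
      have : Rf e b - 1 ≠ 0 := sub_ne_zero.2 hR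
      positivity
    obtain ⟨hE, hD⟩ := isDef_zero hb hz.symm hQ
    refine ⟨hE, ?_⟩
    rw [hF.normal_unique hD (isOpen_room e) hb, (hasGradient_Ff hz.symm hE).gradient, ← hz,
      zero_smul, add_zero]
    have hpos := expNegInvGlue.pos_of_pos hQ
    rw [norm_smul, Real.norm_of_nonneg hpos.le, mul_inv, smul_smul]
    congr 1
    field_simp

theorem St_reflect (he : ‖e‖ = 1) {b ν v : Euc n} (hb : b ∈ frontier (room e))
    (hν : IsOuterNormal (room e) b ν) (h : St e b v) : St e b (v - (2 * ⟪v, ν⟫) • ν) := by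
  rcases h with h | ⟨hz, hJ⟩
  · exact Or.inl h
  · right
    refine ⟨hz, ?_⟩
    obtain ⟨hE, hn⟩ := normal_upper he hb hz hJ hν
    have h1 : (2 * ⟪v, ν⟫) • ν = (2 * (⟪v, b + ⟪e, b⟫ • e⟫ / ‖b + ⟪e, b⟫ • e‖ ^ 2)) •
        (b + ⟪e, b⟫ • e) := by
      rw [hn, real_inner_smul_right, smul_smul]
      congr 1
      rw [div_eq_mul_inv, pow_two, mul_inv]
      ring
    rw [h1, Jf_reflect he hE]
    exact hJ

/-- a photon which starts on the outer side stays there -/
theorem photon_outer (he : ‖e‖ = 1) {p v q : Euc n} {t : ℝ} (h : Photon (room e) p v t q) :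
    St e p v → ⟪e, q⟫ < 0 → 1 < Rf e q := by
  induction h with
  | fly p v t ht hin =>
    intro hSt hq
    have h1 : St e (p + t • v) v := by
      rcases ht.lt_or_eq with h0 | h0
      · exact St_segment h0 (fun s hs => hin s ⟨hs.1, hs.2.le⟩) hSt
      · rw [← h0, zero_smul, add_zero]
        exact hSt
    rcases h1 with h1 | h1
    · exact h1.2
    · exact absurd hq (not_lt.2 h1.1)
  | bounce p v ν q τ t hτ hin hb hν hv h ih =>
    intro hSt
    exact ih (St_reflect he hb hν (St_segment hτ hin hSt))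

/-- the lower outer pocket, where the light is -/
def outer (e : Euc n) : Set (Euc n) := {q | q ∈ room e ∧ ⟪e, q⟫ < 0 ∧ 1 < Rf e q}

/-- the lower inner pocket, which stays dark -/
def inner_ (e : Euc n) : Set (Euc n) := {q | q ∈ room e ∧ ⟪e, q⟫ < 0 ∧ Rf e q < 1}

theorem isOpen_outer (e : Euc n) : IsOpen (outer e) :=
  (isOpen_room e).inter ((isOpen_lt (contDiff_z e).continuous continuous_const).inter
    (isOpen_lt continuous_const (continuous_Rf e)))

theorem isOpen_inner (e : Euc n) : IsOpen (inner_ e) :=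
  (isOpen_room e).inter ((isOpen_lt (contDiff_z e).continuous continuous_const).inter
    (isOpen_lt (continuous_Rf e) continuous_const))

/-- points of the room just below a point at the level `0` -/
theorem exists_below (he : ‖e‖ = 1) {x : Euc n} (hz : ⟪e, x⟫ = 0) (hR : Rf e x ≠ 1)
    (hE : Ev e x < 1) : ∃ q ∈ room e, ⟪e, q⟫ < 0 ∧ Rf e q = Rf e x := by
  have hx : x ∈ room e := by
    rw [mem_room_iff_of_neg e hz.le]
    unfold Ff
    have hQ : 0 < Qf e x := by
      rw [Qf_eq]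
      have : Rf e x - 1 ≠ 0 := sub_ne_zero.2 hR
      positivity
    rw [hz, neg_zero, expNegInvGlue.zero, zero_sub, neg_lt_zero]
    exact mul_pos (expNegInvGlue.pos_of_pos hQ) (by linarith)
  have hc : Continuous fun t : ℝ => x + t • e := by fun_prop
  have h1 : ∀ᶠ t : ℝ in 𝓝 0, x + t • e ∈ room e := by
    refine hc.continuousAt.eventually ?_
    simp only [zero_smul, add_zero]
    exact (isOpen_room e).mem_nhds hx
  have h2 : ∀ᶠ t : ℝ in 𝓝[<] 0, x + t • e ∈ room e := h1.filter_mono nhdsWithin_le_nhds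
  obtain ⟨t, ht1, ht2⟩ := (h2.and self_mem_nhdsWithin).exists
  have ht2' : t < 0 := ht2
  refine ⟨x + t • e, ht1, ?_, ?_⟩
  · rw [z_add he, hz, zero_add]
    exact ht2'
  · unfold Rf
    rw [nsq_add he, z_add he]
    ring

theorem inner_nonempty (he : ‖e‖ = 1) : (inner_ e).Nonempty := by
  obtain ⟨q, h1, h2, h3⟩ := exists_below he (x := (0 : Euc n)) (by simp) (by simp [Rf])
    (by simp [Ev])
  refine ⟨q, h1, h2, ?_⟩
  rw [h3]
  simp [Rf]

theorem outer_nonempty (he : ‖e‖ = 1) {f : Euc n} (hf : ‖f‖ = 1) (hef : ⟪e, f⟫ = 0) :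
    (outer e).Nonempty := by
  have hz : ⟪e, (6 / 5 : ℝ) • f⟫ = 0 := by rw [real_inner_smul_right, hef, mul_zero]
  have hn : ‖(6 / 5 : ℝ) • f‖ = 6 / 5 := by rw [norm_smul, hf]; norm_num
  have hR : Rf e ((6 / 5 : ℝ) • f) = 36 / 25 := by
    unfold Rf
    rw [hz, hn]
    norm_num
  obtain ⟨q, h1, h2, h3⟩ := exists_below he hz (by rw [hR]; norm_num)
    (by unfold Ev; rw [hz, hn]; norm_num)
  refine ⟨q, h1, h2, ?_⟩
  rw [h3, hR]
  norm_num

theorem front_disjoint (he : ‖e‖ = 1) {P : Euc n} (hP : P ∈ outer e) (t : ℝ) :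
    Disjoint (front (room e) P t) (inner_ e) := by
  rw [Set.disjoint_left]
  rintro q ⟨v, -, hv⟩ ⟨-, hq1, hq2⟩
  have := photon_outer he hv (Or.inl ⟨hP.2.1, hP.2.2⟩) hq1
  linarith

theorem main : ∀ n : ℕ, 2 ≤ n → ∃ Ω : Set (Euc n), IsSmoothDomain Ω ∧ ∃ U V : Set (Euc n),
    IsOpen U ∧ U.Nonempty ∧ U ⊆ Ω ∧ IsOpen V ∧ V.Nonempty ∧ V ⊆ Ω ∧
      ∀ P ∈ U, (∀ t : ℝ, Disjoint (front Ω P t) V) ∧ ¬ FrontsBecomeDense Ω P := by
  intro n hn
  obtain ⟨m, rfl⟩ : ∃ m, n = m + 2 := ⟨n - 2, by omega⟩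
  set e : Euc (m + 2) := EuclideanSpace.single 0 1 with hedef
  set f : Euc (m + 2) := EuclideanSpace.single 1 1 with hfdef
  have he : ‖e‖ = 1 := by rw [hedef]; simp
  have hf : ‖f‖ = 1 := by rw [hfdef]; simp
  have hef : ⟪e, f⟫ = 0 := by
    rw [hedef, hfdef, EuclideanSpace.inner_single_left]
    simp
  refine ⟨room e, isSmoothDomain_room he, outer e, inner_ e, isOpen_outer e,
    outer_nonempty he hf hef, fun q hq => hq.1, isOpen_inner e, inner_nonempty he,
    fun q hq => hq.1, fun P hP => ⟨front_disjoint he hP, fun hd => ?_⟩⟩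
  obtain ⟨x, hx⟩ := inner_nonempty he
  obtain ⟨ε, hε, hball⟩ := Metric.isOpen_iff.1 (isOpen_inner e) x hx
  obtain ⟨T, hT⟩ := hd ε hε
  obtain ⟨q, hq, hq2⟩ := hT T le_rfl x hx.1
  exact Set.disjoint_left.1 (front_disjoint he hP T) hq
    (hball (by rw [Metric.mem_ball, dist_comm]; exact hq2))

end Pool.Agent.Y330.PR
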